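import Pool.Agent.Helper20.NP.Stmts
import Pool.Agent.Helper45.DN.DIST
import Pool.Agent.Helper32.DN.DETI

/-! Module BAS: expansion in the powers of a uniformizer. -/

set_option autoImplicit false

namespace Pool.Agent.Helper20.NP

open Pool.Agent.Helper21.DN

universe u

theorem bas_pow {L : Type u} [Field L] (v : AddValuation L (WithTop ℤ)) {π : L} (h : v π = 1)
    (i : ℕ) : v (π ^ i) = ((i : ℤ) : WithTop ℤ) := by
  induction i with
  | zero => simp
  | succ i ih =>
    rw [pow_succ, AddValuation.map_mul, ih, h]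
    push_cast
    rfl

theorem st_BAS : ST_BAS.{u} := by
  intro k K L _ _ _ _ _ _ κ v hR π hπ x
  set n := Module.finrank K L with hn
  let b : Fin n → L := fun i => π ^ (i : ℕ)
  have hb : ∀ j : Fin n, v (b j) = (((j : ℕ) : ℤ) : WithTop ℤ) := fun j => bas_pow v hπ _
  have hbi : LinearIndependent K b := dist_ind κ v hR n hn b hb
  let B : Module.Basis (Fin n) K L := basisOfLinearIndependentOfCardEqFinrank' b hbi (by simp [hn])
  have hB : ∀ i, B i = b i := by
    intro i
    simp [B]
  have hsum : x = ∑ i, B.repr x i • π ^ (i : ℕ) := by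
    have h1 := B.sum_repr x
    simp only [hB] at h1
    exact h1.symm
  refine ⟨fun i => B.repr x i, hsum, ?_, ?_⟩
  · intro i
    change v x ≤ v (B.repr x i • π ^ (i : ℕ))
    by_cases hx : x = 0
    · have h0 : B.repr x i = 0 := by rw [hx]; simp
      rw [h0, zero_smul, AddValuation.map_zero]
      exact le_top
    · have hne : v x ≠ ⊤ := fun h => hx ((AddValuation.top_iff v).1 h)
      obtain ⟨m, hm⟩ := WithTop.ne_top_iff_exists.1 hne
      rw [← hm]
      refine deti_sum v n (fun i => B.repr x i • π ^ (i : ℕ)) ?_ m (by rw [← hsum, hm]) i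
      intro j
      by_cases hj : B.repr x j = 0
      · left
        rw [hj, zero_smul, AddValuation.map_zero]
      · right
        obtain ⟨a, ha⟩ := deti_K κ v hR (B.repr x j) hj
        refine ⟨a, ?_⟩
        rw [Algebra.smul_def, AddValuation.map_mul, ha, bas_pow v hπ, ← hn]
        norm_cast
  · intro i
    change ∃ m : WithTop ℤ, v (algebraMap K L (B.repr x i)) = n • m
    by_cases hi : B.repr x i = 0
    · refine ⟨⊤, ?_⟩
      rw [hi, map_zero, AddValuation.map_zero]
      have hpos : 0 < n := i.pos
      obtain ⟨m, hm⟩ : ∃ m, n = m + 1 := ⟨n - 1, by omega⟩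
      rw [hm, succ_nsmul]
      exact (WithTop.add_top _).symm
    · obtain ⟨a, ha⟩ := deti_K κ v hR (B.repr x i) hi
      refine ⟨(a : WithTop ℤ), ?_⟩
      rw [ha, ← hn, ← WithTop.coe_nsmul]
      simp

end Pool.Agent.Helper20.NP
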