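import Pool.Agent.Helper20.NP.Stmts
import Pool.Agent.Helper24.DN.GRF
import Pool.Agent.Helper79.DN.ASC

/-! Module TG: `TPP` for a central element of order `p` in the last ramification group. -/

set_option autoImplicit false

namespace Pool.Agent.Helper20.NP

open Pool.Agent.Helper21.DN

universe u

section

open scoped Classical

/-- the values of a ramification function on the powers of an element -/
theorem tg_pow {G : Type u} [Group G] [Fintype G] (f : G → ℕ) (hf : RF f) (z : G) :
    ∀ i : ℕ, z ^ i = 1 ∨ f z ≤ f (z ^ i) := by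
  intro i
  induction i with
  | zero => exact Or.inl (pow_zero z)
  | succ i ih =>
    by_cases h1 : z ^ (i + 1) = 1
    · exact Or.inl h1
    · right
      by_cases h2 : z ^ i = 1
      · rw [pow_succ, h2, one_mul]
      · have h3 : z ≠ 1 := by
          rintro rfl
          exact h2 (one_pow i)
        rcases ih with h | h
        · exact absurd h h2
        · have h4 := hf.mul (z ^ i) z h2 h3 (by rw [← pow_succ]; exact h1)
          rw [← pow_succ, min_eq_right h] at h4
          exact h4

/-- the sum over the subgroup of a central element in the last ramification group -/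
theorem tg_split {G : Type u} [Group G] [Fintype G] (f : G → ℕ) (hf : RF f) (z : G) (p : ℕ)
    (hz : orderOf z = p) (hzx : f z = x0 f) :
    S1 f = (∑ g ∈ Finset.univ.filter (fun g : G => g ∉ Subgroup.zpowers z), f g) +
      (p - 1) * x0 f := by
  unfold S1
  rw [← Finset.sum_filter_add_sum_filter_not (Finset.univ.filter (fun g : G => g ≠ 1))
    (fun g => g ∉ Subgroup.zpowers z)]
  congr 1
  · apply Finset.sum_congr _ (fun _ _ => rfl)
    ext g
    simp only [Finset.mem_filter, Finset.mem_univ, true_and]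
    constructor
    · exact fun h => h.2
    · intro h
      refine ⟨?_, h⟩
      rintro rfl
      exact h (Subgroup.one_mem _)
  · have h1 : ∀ g ∈ (Finset.univ.filter (fun g : G => g ≠ 1)).filter
        (fun g => ¬ g ∉ Subgroup.zpowers z), f g = x0 f := by
      intro g hg
      rw [Finset.mem_filter, Finset.mem_filter, not_not] at hg
      obtain ⟨⟨-, hg1⟩, hgz⟩ := hg
      apply le_antisymm
      · unfold x0
        exact Finset.le_sup (f := f) (Finset.mem_filter.2 ⟨Finset.mem_univ _, hg1⟩)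
      · have h2 := (mem_powers_iff_mem_zpowers (x := z) (y := g)).2 hgz
        obtain ⟨i, rfl⟩ := h2
        simp only at hg1 ⊢
        rcases tg_pow f hf z i with h | h
        · exact absurd h hg1
        · rw [← hzx]
          exact h
    rw [Finset.sum_congr rfl h1, Finset.sum_const, smul_eq_mul]
    congr 1
    have h2 : (Finset.univ.filter (fun g : G => g ≠ 1)).filter
        (fun g => ¬ g ∉ Subgroup.zpowers z) =
        (Finset.univ.filter (fun g : G => g ∈ Subgroup.zpowers z)).erase 1 := by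
      ext g
      simp only [Finset.mem_filter, Finset.mem_univ, true_and, not_not, Finset.mem_erase]
    rw [h2, Finset.card_erase_of_mem (Finset.mem_filter.2 ⟨Finset.mem_univ _,
      Subgroup.one_mem _⟩)]
    congr 1
    rw [← hz, ← Nat.card_zpowers, Nat.card_eq_fintype_card, Fintype.card_subtype]

variable {k K L : Type u} [Field k] [Field K] [Field L] [Algebra K L] [FiniteDimensional K L]
  [IsGalois K L]

/-- the sum outside a normal subgroup in terms of the quotient -/
theorem tg_sum (h3 : ST_P3.{u}) (p : ℕ) [Fact p.Prime] [CharP k p]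
    (κ : k →+* K) (v : AddValuation L (WithTop ℤ)) (hR : Ram κ v)
    (hp : IsPGroup p (L ≃ₐ[K] L)) (J : Subgroup (L ≃ₐ[K] L)) [J.Normal]
    (vF : AddValuation (IntermediateField.fixedField J) (WithTop ℤ))
    (t1 : TV ((algebraMap K (IntermediateField.fixedField J)).comp κ) vF)
    (t2 : ∀ x : IntermediateField.fixedField J,
      v (x : L) = Module.finrank (IntermediateField.fixedField J) L • vF x) :
    (∑ g ∈ Finset.univ.filter (fun g : L ≃ₐ[K] L => g ∉ J), s v g) =
      Nat.card J * S1 (fun σ : (IntermediateField.fixedField J) ≃ₐ[K]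
        (IntermediateField.fixedField J) => s vF σ) := by
  let r : (L ≃ₐ[K] L) →* ((IntermediateField.fixedField J) ≃ₐ[K]
      (IntermediateField.fixedField J)) :=
    AlgEquiv.restrictNormalHom (IntermediateField.fixedField J)
  have hrs : Function.Surjective r := AlgEquiv.restrictNormalHom_surjective L
  have hker : r.ker = J := by
    rw [IntermediateField.restrictNormalHom_ker, IntermediateField.fixingSubgroup_fixedField]
  have hmk : ∀ g, r g = 1 ↔ g ∈ J := by
    intro g
    have h1 : g ∈ r.ker ↔ g ∈ J := by rw [hker]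
    rw [MonoidHom.mem_ker] at h1
    exact h1
  have hne : ∀ g, r g ≠ 1 ↔ g ∉ J := fun g => not_congr (hmk g)
  have hP : ∀ g, g ∉ J → Nat.card J * s vF (r g) = cs (fun σ : L ≃ₐ[K] L => s v σ) J g :=
    fun g hg => grf_P3 h3 p κ v hR hp J vF t1 t2 g hg
  unfold S1
  rw [Finset.mul_sum, ← Finset.sum_fiberwise_of_maps_to (g := r)
    (t := Finset.univ.filter (fun σ : (IntermediateField.fixedField J) ≃ₐ[K]
      (IntermediateField.fixedField J) => σ ≠ 1))]
  · apply Finset.sum_congr rfl
    intro τ hτ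
    rw [Finset.mem_filter] at hτ
    obtain ⟨g, rfl⟩ := hrs τ
    rw [hP g ((hne g).1 hτ.2), ← grf_fib r J hker]
    apply Finset.sum_congr _ (fun _ _ => rfl)
    ext x
    simp only [Finset.mem_filter, Finset.mem_univ, true_and]
    constructor
    · rintro ⟨-, h⟩
      exact h
    · intro h
      exact ⟨(hne x).1 (h ▸ hτ.2), h⟩
  · intro g hg
    rw [Finset.mem_filter] at hg ⊢
    exact ⟨Finset.mem_univ _, (hne g).2 hg.2⟩

end

theorem tg_val {L : Type u} [Field L] (p : ℕ) (hp : 2 ≤ p) (v : AddValuation L (WithTop ℤ))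
    (w : L) (m : ℕ) (hm : 1 ≤ m) (hw : v w = ((-(m : ℤ) : ℤ) : WithTop ℤ)) :
    v (w ^ p - w) = p • ((-(m : ℤ) : ℤ) : WithTop ℤ) := by
  have h1 : v (w ^ p) = p • ((-(m : ℤ) : ℤ) : WithTop ℤ) := by
    rw [AddValuation.map_pow, hw]
  have hlt : v (w ^ p) < v w := by
    rw [h1, hw, asc_nsmul_coe]
    have h2 : (p : ℤ) * (-(m : ℤ)) < -(m : ℤ) := by
      have hp' : (2 : ℤ) ≤ p := by exact_mod_cast hp
      have hm' : (1 : ℤ) ≤ m := by exact_mod_cast hm
      nlinarith
    exact_mod_cast h2
  rw [AddValuation.map_sub_eq_of_lt_left (v := v) hlt, h1]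

theorem st_TG (hAS1 : ST_AS1.{u}) (hDIFR : ST_DIFR.{u}) (hTPP : ST_TPP.{u}) (hBCH : ST_BCH.{u})
    (hP3 : ST_P3.{u}) (hRFV : ST_RFV.{u}) : ST_TG.{u} := by
  classical
  intro p _ k K L _ _ _ _ _ _ _ _ κ v hR hp D e hD ζ hζc hζo hζx
  have hpp : p.Prime := Fact.out
  have hp2 := hpp.two_le
  have hRF := hRFV p k K L κ v hR hp
  set J := Subgroup.zpowers ζ with hJ
  have hcomm : ∀ g : L ≃ₐ[K] L, g * ζ = ζ * g := Subgroup.mem_center_iff.1 hζc
  have hJle : J ≤ Subgroup.center (L ≃ₐ[K] L) := by
    rw [hJ, Subgroup.zpowers_le]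
    exact hζc
  have hJn : J.Normal := by
    constructor
    intro n hn g
    have h1 := Subgroup.mem_center_iff.1 (hJle hn) g
    rw [h1, mul_inv_cancel_right]
    exact hn
  have hJcard : Nat.card J = p := by rw [hJ, Nat.card_zpowers, hζo]
  have hζJ : ζ ∈ J := Subgroup.mem_zpowers ζ
  set E := IntermediateField.fixedField J with hE
  have hfin : Module.finrank E L = p := by
    rw [hE, IntermediateField.finrank_fixedField_eq_card, hJcard]
  have hRE := hBCH k K L κ v hR E
  let eq : J ≃* (L ≃ₐ[E] L) := IntermediateField.subgroupEquivAlgEquiv J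
  have heq : ∀ (h : J) (x : L), eq h x = (h : L ≃ₐ[K] L) x := fun h x => rfl
  have hζ1 : ζ ≠ 1 := by
    rintro rfl
    rw [orderOf_one] at hζo
    omega
  have hζE : eq ⟨ζ, hζJ⟩ ≠ 1 := by
    intro h
    have h1 : (⟨ζ, hζJ⟩ : J) = 1 := eq.injective (by rw [h, map_one])
    exact hζ1 (congrArg Subtype.val h1)
  obtain ⟨w, α, m, hm1, hpm, hw1, hwα, hvw, hsm⟩ :=
    hAS1 p k E L ((algebraMap K E).comp κ) v hRE hfin (eq ⟨ζ, hζJ⟩) hζE
  have hsζ : s v (eq ⟨ζ, hζJ⟩) = s v ζ := by
    have : ((eq ⟨ζ, hζJ⟩ : L ≃ₐ[E] L) : L → L) = (ζ : L → L) := funext (heq ⟨ζ, hζJ⟩)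
    rw [this]
  rw [hsζ] at hsm
  have hζw : ζ w = w + 1 := hw1
  have hx0 : x0 (fun σ : L ≃ₐ[K] L => s v σ) = m := by rw [← hζx, hsm]
  -- the field `E`
  obtain ⟨vE, t1, t2⟩ := hR.sub E
  have hRamE : Ram κ vE := grf_quot κ v hR E vE t1 t2
  set r : (L ≃ₐ[K] L) →* (E ≃ₐ[K] E) := AlgEquiv.restrictNormalHom E with hr
  have hrs : Function.Surjective r := AlgEquiv.restrictNormalHom_surjective L
  have hpE : IsPGroup p (E ≃ₐ[K] E) := hp.of_surjective r hrs
  obtain ⟨D', -, hD'⟩ := hDIFR p K L v D e hD E vE t2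
  have hvα : vE α = ((-(m : ℤ) : ℤ) : WithTop ℤ) := by
    apply grf_cancel p (by omega)
    have h1 := t2 α
    rw [hfin] at h1
    rw [← h1]
    have h2 : ((α : E) : L) = w ^ p - w := hwα.symm
    rw [h2, tg_val p hp2 v w m hm1 hvw]
  have hchar : CharP L p :=
    charP_of_injective_ringHom ((algebraMap K L).comp κ).injective p
  have hinv : ∀ τ : E ≃ₐ[K] E, ∃ g : E, τ α - α = g ^ p - g := by
    intro τ
    obtain ⟨σ, rfl⟩ := hrs τ
    have hmem : σ w - w ∈ E := by
      rw [hE, IntermediateField.mem_fixedField_iff]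
      have h1 : ζ (σ w - w) = σ w - w := by
        have h2 : ζ (σ w) = σ (ζ w) := by
          have := congrArg (fun g : L ≃ₐ[K] L => g w) (hcomm σ)
          exact this.symm
        rw [map_sub, h2, hζw, map_add, map_one]
        ring
      intro g hg
      have h3 : J ≤ MulAction.stabilizer (L ≃ₐ[K] L) (σ w - w) := by
        rw [hJ, Subgroup.zpowers_le, MulAction.mem_stabilizer_iff]
        exact h1
      exact MulAction.mem_stabilizer_iff.1 (h3 hg)
    refine ⟨⟨σ w - w, hmem⟩, ?_⟩
    apply Subtype.ext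
    have h4 : ((r σ α : E) : L) = σ (α : L) := AlgEquiv.restrictNormal_commutes σ E α
    have h5 : ((α : E) : L) = w ^ p - w := hwα.symm
    change ((r σ α : E) : L) - (α : L) = (σ w - w) ^ p - (σ w - w)
    rw [h4, h5, map_sub, map_pow, sub_pow_char]
    ring
  have hT := hTPP p k K E κ vE hRamE hpE D' e hD' α m hm1 hpm hvα hinv
  -- the sums
  have hS := tg_split (fun σ : L ≃ₐ[K] L => s v σ) hRF ζ p hζo hζx
  have hS2 := tg_sum hP3 p κ v hR hp J vE t1 t2
  rw [hJcard] at hS2
  have hS3 : S1 (fun σ : L ≃ₐ[K] L => s v σ) =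
      p * S1 (fun σ : E ≃ₐ[K] E => s vE σ) + (p - 1) * m := by
    rw [hS, hx0]
    congr 1
  have hcard : Fintype.card (L ≃ₐ[K] L) = p * Module.finrank K E := by
    rw [← Nat.card_eq_fintype_card, IsGalois.card_aut_eq_finrank,
      ← Module.finrank_mul_finrank K E L, hfin, mul_comm]
  rw [hx0]
  have hpm1 : (p - 1) * m + m = p * m := by
    obtain ⟨q, rfl⟩ : ∃ q, p = q + 1 := ⟨p - 1, by omega⟩
    rw [Nat.add_sub_cancel]
    ring
  rcases hT with h | h
  · left
    rw [hcard, hS3]
    have h6 : p * S1 (fun σ : E ≃ₐ[K] E => s vE σ) + (p - 1) * m + m =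
        p * (m + S1 (fun σ : E ≃ₐ[K] E => s vE σ)) := by
      rw [add_assoc, hpm1]
      ring
    rw [h6]
    exact Nat.mul_dvd_mul_left p h
  · right
    rw [hS3]
    omega

end Pool.Agent.Helper20.NP
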